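import Pool.Agent.R646.A.Main

/-!
# Weakly geodesically automatic but not ShortLex-automatic for any order
-/

set_option autoImplicit false

namespace Pool.Agent.Results.MP_3489e4_al.NeverShortLex

open Pool.Agent.R646.A

/-- There are a group `G` and a finite generating set `A` of `G`, closed under inversion, such that
`G` is weakly geodesically automatic with respect to `A`, but for no total order on `A` is `G`
ShortLex-automatic with respect to `A` and that order. -/
theorem result :
    ∃ (G : Type) (_ : Group G) (A : Set G), A.Finite ∧ (∀ a ∈ A, a⁻¹ ∈ A) ∧
      Subgroup.closure A = ⊤ ∧ WeaklyGeodesicallyAutomatic A ∧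
      ∀ r : LinearOrder A, ¬ ShortLexAutomatic A r :=
  ⟨GG, inferInstance, AA, AA_finite, AA_inv, AA_closure, wga, not_shortlex⟩

end Pool.Agent.Results.MP_3489e4_al.NeverShortLex
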